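import Pool.Agent.W648.UN.Stm

/-!
# Landsberg unicorn: functoriality and complex conjugation
-/

set_option autoImplicit false

open MeasureTheory Set Filter Topology
open scoped ContDiff

set_option linter.all false

noncomputable section

namespace Pool.Agent.W333.UN

open Pool.Agent.W648.UN

/-! ## elementary facts -/

section basic

theorem contD (hD : S_D) {b : ℂ} (hb : b ∈ Om) : ContinuousOn (fun s : ℝ => D b s) (Ico 0 1) := by
  have h := hD.2.2.1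
  have h2 : ContinuousOn (fun s : ℝ => ((b, s) : ℂ × ℝ)) (Ico 0 1) :=
    (Continuous.prodMk continuous_const continuous_id).continuousOn
  have h3 : MapsTo (fun s : ℝ => ((b, s) : ℂ × ℝ)) (Ico (0 : ℝ) 1) (Om ×ˢ Ico (0 : ℝ) 1) :=
    fun s hs => Set.mk_mem_prod hb hs
  have h4 := h.comp h2 h3
  simpa only [Function.comp_def] using h4

theorem contDinv (hD : S_D) {b : ℂ} (hb : b ∈ Om) :
    ContinuousOn (fun s : ℝ => (D b s)⁻¹) (Ico 0 1) :=
  (contD hD hb).inv₀ fun s hs => (hD.1 b hb s hs).1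

theorem normDinv (hD : S_D) {b : ℂ} (hb : b ∈ Om) {s : ℝ} (hs : s ∈ Ico (0 : ℝ) 1) :
    ‖(D b s)⁻¹‖ ≤ (1 - s) ^ (-(1 / 2) : ℝ) := by
  obtain ⟨h0, -, h1, -, -⟩ := hD.1 b hb s hs
  have hs1 : 0 < 1 - s := by linarith [hs.2]
  rw [norm_inv, Real.rpow_neg hs1.le, ← Real.sqrt_eq_rpow]
  refine inv_anti₀ (Real.sqrt_pos.mpr hs1) ?_
  exact Real.sqrt_le_iff.mpr ⟨norm_nonneg _, h1⟩

theorem normD (hD : S_D) {b : ℂ} (hb : b ∈ Om) {s : ℝ} (hs : s ∈ Ico (0 : ℝ) 1) :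
    ‖D b s‖ ≤ (2 : ℝ) ^ (1 / 4 : ℝ) * ‖D b 0‖ :=
  hD.2.1 b hb 0 ⟨le_refl _, one_pos⟩ s ⟨hs.1, hs.2.le⟩

theorem int12 : IntegrableOn (fun s : ℝ => (1 - s) ^ (-(1 / 2) : ℝ)) (Ioo 0 1) := by
  have h := (intervalIntegral.intervalIntegrable_rpow' (a := 0) (b := 1)
    (by norm_num : (-1 : ℝ) < -(1 / 2))).comp_sub_left 1
  simp only [sub_zero, sub_self] at h
  exact (intervalIntegrable_iff_integrableOn_Ioo_of_le zero_le_one).mp h.symm

theorem ii {A : Type} [NormedAddCommGroup A] [NormedSpace ℝ A] {F : ℝ → A} {g : ℝ → ℝ}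
    (hF : AEStronglyMeasurable F (volume.restrict (Ioo (0 : ℝ) 1)))
    (hg : IntegrableOn g (Ioo 0 1)) (h : ∀ s ∈ Ioo (0 : ℝ) 1, ‖F s‖ ≤ g s) :
    ∀ x ∈ Icc (0 : ℝ) 1, IntervalIntegrable F volume x 1 := by
  intro x hx
  have h1 : IntegrableOn F (Ioo 0 1) :=
    Integrable.mono' hg hF (ae_restrict_of_forall_mem measurableSet_Ioo h)
  rw [intervalIntegrable_iff_integrableOn_Ioo_of_le hx.2]
  exact h1.mono_set (Ioo_subset_Ioo_left hx.1)

theorem meas {A : Type} [NormedAddCommGroup A] {f : ℝ → A} (hf : ContinuousOn f (Ico (0 : ℝ) 1)) :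
    AEStronglyMeasurable f (volume.restrict (Ioo (0 : ℝ) 1)) :=
  (hf.mono Ioo_subset_Ico_self).aestronglyMeasurable measurableSet_Ioo

theorem one_le_rp {s : ℝ} (hs : s ∈ Ioo (0 : ℝ) 1) (a : ℝ) (ha : a ≤ 0) : 1 ≤ (1 - s) ^ a :=
  Real.one_le_rpow_of_pos_of_le_one_of_nonpos (by linarith [hs.2]) (by linarith [hs.1]) ha

theorem rp_mono {s : ℝ} (hs : s ∈ Ioo (0 : ℝ) 1) :
    (1 - s) ^ (-(1 / 2) : ℝ) ≤ (1 - s) ^ (-(3 / 4) : ℝ) :=
  Real.rpow_le_rpow_of_exponent_ge (by linarith [hs.2]) (by linarith [hs.1]) (by norm_num)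

end basic

section sol

variable {A : Type} [NormedCommRing A] [NormedAlgebra ℂ A] [CompleteSpace A] [NormOneClass A]
  {H : ℝ → A} {b : ℂ} {p q E : ℝ → A}

theorem le_of_near {a : A} (h : ‖a - 1‖ ≤ 1 / 4) : ‖a‖ ≤ 5 / 4 := by
  have : a = (a - 1) + 1 := by ring
  rw [this]
  refine (norm_add_le _ _).trans ?_
  rw [norm_one]; linarith

theorem inv_le {a c : A} (h : ‖a - 1‖ ≤ 1 / 4) (hc : a * c = 1) : ‖c‖ ≤ 4 / 3 := by
  have h1 : c = 1 - (a - 1) * c := by rw [sub_mul, hc]; ring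
  have h2 : ‖c‖ ≤ 1 + 1 / 4 * ‖c‖ := by
    calc ‖c‖ = ‖1 - (a - 1) * c‖ := by rw [← h1]
      _ ≤ ‖(1 : A)‖ + ‖(a - 1) * c‖ := norm_sub_le _ _
      _ ≤ 1 + ‖a - 1‖ * ‖c‖ := by rw [norm_one]; linarith [norm_mul_le (a - 1) c]
      _ ≤ 1 + 1 / 4 * ‖c‖ := by linarith [mul_le_mul_of_nonneg_right h (norm_nonneg c)]
  linarith

theorem ii1 (hD : S_D) (hb : b ∈ Om) (hH : NB H (1 / 20)) (hs : Sol H b p q E) :
    ∀ x ∈ Icc (0 : ℝ) 1, IntervalIntegrable (fun s => D b s • (H s * p s)) volume x 1 := by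
  obtain ⟨hm, hi, -⟩ := hH
  refine ii (g := fun s => (2 : ℝ) ^ (1 / 4 : ℝ) * ‖D b 0‖ * (5 / 4) *
    (‖H s‖ * (1 - s) ^ (-(3 / 4) : ℝ))) ?_ (hi.const_mul _) ?_
  · exact (meas (contD hD hb)).smul (hm.mul (meas hs.cp))
  · intro s hs'
    have hs2 : s ∈ Ico (0 : ℝ) 1 := ⟨hs'.1.le, hs'.2⟩
    have a1 := normD hD hb hs2
    have a2 := le_of_near (hs.bp s hs2)
    have a3 := one_le_rp hs' (-(3 / 4)) (by norm_num)
    calc ‖D b s • (H s * p s)‖ ≤ ‖D b s‖ * (‖H s‖ * ‖p s‖) := by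
          rw [norm_smul]
          exact mul_le_mul_of_nonneg_left (norm_mul_le _ _) (norm_nonneg _)
      _ ≤ ((2 : ℝ) ^ (1 / 4 : ℝ) * ‖D b 0‖) * (‖H s‖ * (5 / 4)) := by gcongr
      _ = (2 : ℝ) ^ (1 / 4 : ℝ) * ‖D b 0‖ * (5 / 4) * (‖H s‖ * 1) := by ring
      _ ≤ _ := by gcongr

theorem ii2 (hD : S_D) (hb : b ∈ Om) (hH : NB H (1 / 20)) (hs : Sol H b p q E) :
    ∀ x ∈ Icc (0 : ℝ) 1, IntervalIntegrable (fun s => (D b s)⁻¹ • (H s * q s * E s)) volume x 1 := by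
  obtain ⟨hm, hi, -⟩ := hH
  refine ii (g := fun s => 5 / 3 * (‖H s‖ * (1 - s) ^ (-(3 / 4) : ℝ))) ?_ (hi.const_mul _) ?_
  · exact (meas (contDinv hD hb)).smul ((hm.mul (meas hs.cq)).mul (meas hs.cE))
  · intro s hs'
    have hs2 : s ∈ Ico (0 : ℝ) 1 := ⟨hs'.1.le, hs'.2⟩
    have a1 := normDinv hD hb hs2
    have a2 := le_of_near (hs.bE s hs2)
    have a3 := inv_le (hs.bp s hs2) (hs.pq s hs2)
    have a4 := rp_mono hs'
    calc ‖(D b s)⁻¹ • (H s * q s * E s)‖ ≤ ‖(D b s)⁻¹‖ * (‖H s‖ * ‖q s‖ * ‖E s‖) := by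
          rw [norm_smul]
          refine mul_le_mul_of_nonneg_left ((norm_mul_le _ _).trans ?_) (norm_nonneg _)
          exact mul_le_mul_of_nonneg_right (norm_mul_le _ _) (norm_nonneg _)
      _ ≤ (1 - s) ^ (-(3 / 4) : ℝ) * (‖H s‖ * (4 / 3) * (5 / 4)) := by
          have h7 := a1.trans a4
          have h8 : 0 ≤ (1 - s) ^ (-(3 / 4) : ℝ) := (norm_nonneg _).trans h7
          gcongr
      _ = _ := by ring

theorem ii3 (hD : S_D) (hb : b ∈ Om) (hs : Sol H b p q E) :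
    IntervalIntegrable (fun x : ℝ => ((1 - (x : ℂ)) * (D b x)⁻¹ ^ 3) • (E x * q x ^ 3)) volume 0 1 := by
  refine ii (g := fun s => 5 / 4 * (4 / 3) ^ 3 * (1 - s) ^ (-(1 / 2) : ℝ)) ?_ (int12.const_mul _) ?_
    0 ⟨le_refl _, zero_le_one⟩
  · refine meas ?_
    refine ContinuousOn.smul ?_ (hs.cE.mul (hs.cq.pow 3))
    exact ContinuousOn.mul (by fun_prop) ((contDinv hD hb).pow 3)
  · intro s hs'
    have hs2 : s ∈ Ico (0 : ℝ) 1 := ⟨hs'.1.le, hs'.2⟩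
    have hs1 : 0 < 1 - s := by linarith [hs'.2]
    have a1 := normDinv hD hb hs2
    have a2 := le_of_near (hs.bE s hs2)
    have a3 := inv_le (hs.bp s hs2) (hs.pq s hs2)
    have e1 : ‖(1 - (s : ℂ))‖ = 1 - s := by
      rw [← Complex.ofReal_one, ← Complex.ofReal_sub, Complex.norm_real, Real.norm_eq_abs,
        abs_of_pos hs1]
    have e2 : (1 - s) * ((1 - s) ^ (-(1 / 2) : ℝ)) ^ 3 = (1 - s) ^ (-(1 / 2) : ℝ) := by
      have h1 : (1 - s) ^ (1 : ℝ) = 1 - s := Real.rpow_one _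
      rw [← Real.rpow_natCast, ← Real.rpow_mul hs1.le]
      nth_rewrite 1 [← h1]
      rw [← Real.rpow_add hs1]
      norm_num
    calc ‖((1 - (s : ℂ)) * (D b s)⁻¹ ^ 3) • (E s * q s ^ 3)‖
        ≤ ((1 - s) * ‖(D b s)⁻¹‖ ^ 3) * (‖E s‖ * ‖q s‖ ^ 3) := by
          rw [norm_smul, norm_mul, norm_pow, e1]
          refine mul_le_mul_of_nonneg_left ((norm_mul_le _ _).trans ?_) (by positivity)
          exact mul_le_mul_of_nonneg_left (norm_pow_le _ _) (norm_nonneg _)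
      _ ≤ ((1 - s) * ((1 - s) ^ (-(1 / 2) : ℝ)) ^ 3) * (5 / 4 * (4 / 3) ^ 3) := by
          gcongr
      _ = _ := by rw [e2]; ring

theorem ii4 (hD : S_D) (hb : b ∈ Om) (hs : Sol H b p q E) :
    IntervalIntegrable (fun x : ℝ => (D b x)⁻¹ • q x) volume 0 1 := by
  refine ii (g := fun s => 4 / 3 * (1 - s) ^ (-(1 / 2) : ℝ)) ?_ (int12.const_mul _) ?_
    0 ⟨le_refl _, zero_le_one⟩
  · exact (meas (contDinv hD hb)).smul (meas hs.cq)
  · intro s hs'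
    have hs2 : s ∈ Ico (0 : ℝ) 1 := ⟨hs'.1.le, hs'.2⟩
    have a1 := normDinv hD hb hs2
    have a3 := inv_le (hs.bp s hs2) (hs.pq s hs2)
    have hs1 : 0 < 1 - s := by linarith [hs'.2]
    calc ‖(D b s)⁻¹ • q s‖ = ‖(D b s)⁻¹‖ * ‖q s‖ := norm_smul _ _
      _ ≤ (1 - s) ^ (-(1 / 2) : ℝ) * (4 / 3) := by gcongr
      _ = _ := by ring

end sol

/-! ## transport -/

/-- a contractive real-linear ring homomorphism which is `σ`-semilinear -/
structure Tr {A B : Type} [NormedCommRing A] [NormedAlgebra ℂ A] [NormedCommRing B]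
    [NormedAlgebra ℂ B] (σ : ℂ →+* ℂ) (T : A →L[ℝ] B) : Prop where
  mul : ∀ a c, T (a * c) = T a * T c
  one : T 1 = 1
  le : ∀ a, ‖T a‖ ≤ ‖a‖
  sm : ∀ (z : ℂ) a, T (z • a) = σ z • T a
  re : ∀ r : ℝ, σ (r : ℂ) = (r : ℂ)

section tr

variable {A : Type} [NormedCommRing A] [NormedAlgebra ℂ A] [CompleteSpace A] [NormOneClass A]
  {B : Type} [NormedCommRing B] [NormedAlgebra ℂ B] [CompleteSpace B] [NormOneClass B]
  {σ : ℂ →+* ℂ} {T : A →L[ℝ] B} {H : ℝ → A} {b b' : ℂ} {p q E : ℝ → A}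

theorem Tr.pow (hT : Tr σ T) (a : A) (n : ℕ) : T (a ^ n) = T a ^ n := by
  induction n with
  | zero => simp [hT.one]
  | succ n ih => rw [pow_succ, hT.mul, ih, pow_succ]

theorem Tr.nb (hT : Tr σ T) {η : ℝ} (hH : NB H η) : NB (fun x => T (H x)) η := by
  obtain ⟨hm, hi, hle⟩ := hH
  have hm2 : AEStronglyMeasurable (fun x => T (H x)) (volume.restrict (Ioo (0 : ℝ) 1)) :=
    T.continuous.comp_aestronglyMeasurable hm
  have hm3 : AEStronglyMeasurable (fun s : ℝ => (1 - s) ^ (-(3 / 4) : ℝ))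
      (volume.restrict (Ioo (0 : ℝ) 1)) := by
    have : Measurable (fun s : ℝ => (1 - s) ^ (-(3 / 4) : ℝ)) := by fun_prop
    exact this.aestronglyMeasurable
  have hb : ∀ s ∈ Ioo (0 : ℝ) 1, ‖T (H s)‖ * (1 - s) ^ (-(3 / 4) : ℝ) ≤
      ‖H s‖ * (1 - s) ^ (-(3 / 4) : ℝ) := by
    intro s hs
    have hs1 : 0 < 1 - s := by linarith [hs.2]
    exact mul_le_mul_of_nonneg_right (hT.le _) (Real.rpow_nonneg hs1.le _)
  have hi2 : IntegrableOn (fun s : ℝ => ‖T (H s)‖ * (1 - s) ^ (-(3 / 4) : ℝ)) (Ioo (0 : ℝ) 1) := by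
    refine Integrable.mono' hi (hm2.norm.mul hm3)
      (ae_restrict_of_forall_mem measurableSet_Ioo fun s hs => ?_)
    have hs1 : 0 < 1 - s := by linarith [hs.2]
    rw [Real.norm_of_nonneg (mul_nonneg (norm_nonneg _) (Real.rpow_nonneg hs1.le _))]
    exact hb s hs
  exact ⟨hm2, hi2, (setIntegral_mono_on hi2 hi measurableSet_Ioo hb).trans hle⟩

theorem Tr.int (hT : Tr σ T) {F : ℝ → A} {x y : ℝ} (hF : IntervalIntegrable F volume x y) :
    T (∫ s in x..y, F s) = ∫ s in x..y, T (F s) :=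
  (T.intervalIntegral_comp_comm hF).symm

theorem Tr.sol (hT : Tr σ T) (hD : S_D) (hb : b ∈ Om) (hσ : ∀ x ∈ Icc (0 : ℝ) 1, D b' x = σ (D b x))
    (hH : NB H (1 / 20)) (hs : Sol H b p q E) :
    Sol (fun x => T (H x)) b' (fun x => T (p x)) (fun x => T (q x)) (fun x => T (E x)) := by
  refine ⟨T.continuous.comp_continuousOn hs.cp, T.continuous.comp_continuousOn hs.cq,
    T.continuous.comp_continuousOn hs.cE, ?_, ?_, ?_, ?_, ?_⟩
  · intro x hx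
    rw [← hT.one, ← map_sub]
    exact (hT.le _).trans (hs.bp x hx)
  · intro x hx
    rw [← hT.one, ← map_sub]
    exact (hT.le _).trans (hs.bE x hx)
  · intro x hx
    rw [← hT.mul, hs.pq x hx, hT.one]
  · intro x hx
    have hx' : x ∈ Icc (0 : ℝ) 1 := ⟨hx.1, hx.2.le⟩
    have h1 := congrArg T (hs.ep x hx)
    rw [hT.pow, map_add, hT.one, hT.sm, hT.int (ii1 hD hb hH hs x hx')] at h1
    rw [h1, map_mul, map_pow, map_inv₀, hσ x hx']
    congr 2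
    · rw [show (2 : ℂ) = ((2 : ℝ) : ℂ) by norm_num, hT.re]
    · refine intervalIntegral.integral_congr fun s hs' => ?_
      rw [uIcc_of_le hx.2.le] at hs'
      show T (D b s • (H s * p s)) = D b' s • (T (H s) * T (p s))
      rw [hT.sm, hT.mul, hσ s ⟨hx.1.trans hs'.1, hs'.2⟩]
  · intro x hx
    have hx' : x ∈ Icc (0 : ℝ) 1 := ⟨hx.1, hx.2.le⟩
    have h1 := congrArg T (hs.eE x hx)
    rw [map_add, hT.one, hT.int (ii2 hD hb hH hs x hx')] at h1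
    rw [h1]
    congr 1
    refine intervalIntegral.integral_congr fun s hs' => ?_
    rw [uIcc_of_le hx.2.le] at hs'
    show T ((D b s)⁻¹ • (H s * q s * E s)) = (D b' s)⁻¹ • (T (H s) * T (q s) * T (E s))
    rw [hT.sm, hT.mul, hT.mul, map_inv₀, hσ s ⟨hx.1.trans hs'.1, hs'.2⟩]

theorem Tr.ups (hT : Tr σ T) (hD : S_D) (hb : b ∈ Om) (hσ : ∀ x ∈ Icc (0 : ℝ) 1, D b' x = σ (D b x))
    (hs : Sol H b p q E) :
    T (upsOf b q E) = upsOf b' (fun x => T (q x)) (fun x => T (E x)) ∧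
      T (tauOf b q) = tauOf b' (fun x => T (q x)) := by
  constructor
  · unfold upsOf
    rw [map_sub, hT.sm, hT.mul, hT.int (ii3 hD hb hs), map_inv₀, hσ 0 ⟨le_refl _, zero_le_one⟩]
    congr 1
    refine intervalIntegral.integral_congr fun s hs' => ?_
    rw [uIcc_of_le zero_le_one] at hs'
    show T (((1 - (s : ℂ)) * (D b s)⁻¹ ^ 3) • (E s * q s ^ 3)) =
      ((1 - (s : ℂ)) * (D b' s)⁻¹ ^ 3) • (T (E s) * T (q s) ^ 3)
    rw [hT.sm, hT.mul, hT.pow, map_mul, map_pow, map_inv₀, map_sub, map_one, hT.re, hσ s hs']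
  · unfold tauOf
    rw [hT.int (ii4 hD hb hs)]
    refine intervalIntegral.integral_congr fun s hs' => ?_
    rw [uIcc_of_le zero_le_one] at hs'
    show T ((D b s)⁻¹ • q s) = (D b' s)⁻¹ • T (q s)
    rw [hT.sm, map_inv₀, hσ s hs']

theorem Tr.main (hT : Tr σ T) (hD : S_D) (hE : S_EX) (hUps : S_UPS) (hb : b ∈ Om) (hb' : b' ∈ Om)
    (hσ : ∀ x ∈ Icc (0 : ℝ) 1, D b' x = σ (D b x)) (hH : NB H (1 / 20)) :
    T (Ups H b) = Ups (fun x => T (H x)) b' ∧ T (Tau H b) = Tau (fun x => T (H x)) b' := by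
  obtain ⟨p, q, E, hs⟩ := hE A H b hH hb
  have hs' := hT.sol hD hb hσ hH hs
  obtain ⟨h1, h2⟩ := hUps A H b p q E hH hb hs
  obtain ⟨h3, h4⟩ := hUps B (fun x => T (H x)) b' _ _ _ (hT.nb hH) hb' hs'
  obtain ⟨h5, h6⟩ := hT.ups hD hb hσ hs
  rw [h1, h2, h3, h4, h5, h6]
  exact ⟨rfl, rfl⟩

end tr

/-- **functoriality** -/
theorem th (hD : S_D) (hE : S_EX) (hUps : S_UPS) : S_FUN := by
  intro A _ _ _ _ B _ _ _ _ φ hφ H b hH hb
  let T : A →L[ℝ] B := LinearMap.mkContinuous (φ.toLinearMap.restrictScalars ℝ) 1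
    (fun a => by rw [one_mul]; exact hφ a)
  have hT : Tr (RingHom.id ℂ) T :=
    { mul := fun a c => map_mul φ a c
      one := map_one φ
      le := hφ
      sm := fun z a => map_smul φ z a
      re := fun r => rfl }
  obtain ⟨h1, h2⟩ := hT.main hD hE hUps hb hb (fun x _ => rfl) hH
  exact ⟨hT.nb hH, h1, h2⟩

theorem conj_D {b : ℂ} (hb : b ∈ Om) {x : ℝ} (hx : x ∈ Icc (0 : ℝ) 1) :
    D ((starRingEnd ℂ) b) x = (starRingEnd ℂ) (D b x) := by
  unfold D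
  have h0 : (starRingEnd ℂ) (1 - (x : ℂ) ^ 2 + b) = 1 - (x : ℂ) ^ 2 + (starRingEnd ℂ) b := by
    rw [map_add, map_sub, map_pow, map_one, Complex.conj_ofReal]
  have hre : 0 ≤ (1 - (x : ℂ) ^ 2 + b).re := by
    have h1 : 0 ≤ b.re := (abs_nonneg _).trans hb
    have h2 : (1 - (x : ℂ) ^ 2 + b).re = 1 - x ^ 2 + b.re := by
      rw [Complex.add_re, Complex.sub_re, ← Complex.ofReal_pow, Complex.ofReal_re, Complex.one_re]
    rw [h2]
    nlinarith [hx.1, hx.2]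
  have harg : (1 - (x : ℂ) ^ 2 + b).arg ≠ Real.pi := by
    intro h
    rw [Complex.arg_eq_pi_iff] at h
    linarith [h.1]
  rw [← h0, Complex.conj_cpow _ _ harg]
  congr 2
  rw [map_div₀, map_one]
  congr 1
  exact Complex.conj_ofReal 2

/-- **complex conjugation** -/
theorem conj (hD : S_D) (hE : S_EX) (hUps : S_UPS) : S_CONJ := by
  intro H b hH hb
  let T : ℂ →L[ℝ] ℂ := (Complex.conjCLE : ℂ →L[ℝ] ℂ)
  have hT : Tr (starRingEnd ℂ) T :=
    { mul := fun a c => map_mul (starRingEnd ℂ) a c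
      one := map_one (starRingEnd ℂ)
      le := fun a => (RCLike.norm_conj a).le
      sm := fun z a => by
        show (starRingEnd ℂ) (z * a) = (starRingEnd ℂ) z * (starRingEnd ℂ) a
        exact map_mul _ _ _
      re := fun r => Complex.conj_ofReal r }
  have hb' : (starRingEnd ℂ) b ∈ Om := by
    show |((starRingEnd ℂ) b).im| ≤ ((starRingEnd ℂ) b).re
    rw [Complex.conj_im, Complex.conj_re, abs_neg]
    exact hb
  obtain ⟨h1, h2⟩ := hT.main hD hE hUps hb hb' (fun x hx => conj_D hb hx) hH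
  exact ⟨h1.symm, h2.symm⟩

end Pool.Agent.W333.UN
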